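import Pool.Agent.Helper63.ST.Defs

/-!
MP_82cbb9_al, ST-3b: Malcev's theorem with bounded index, over all fields.
-/

set_option autoImplicit false

namespace Pool.Agent.ST

open Module

open scoped commutatorElement TensorProduct

/-- the bound obtained from the one for eigenvectors -/
def bnd (f : ℕ → ℕ) : ℕ → ℕ
  | 0 => 1
  | n + 1 => f (n + 1) * bnd f n

/-- commutators of elements with common eigenvector `v` fix `v` -/
theorem fix_of_mem_commutator {k V G : Type} [Field k] [AddCommGroup V] [Module k V] [Group G]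
    (ρ : G →* Module.End k V) (H : Subgroup G) (v : V) (hv : ∀ h ∈ H, ∃ c : k, ρ h v = c • v) :
    ∀ a ∈ ⁅H, H⁆, ρ a v = v := by
  let K : Subgroup G :=
    { carrier := {g | ρ g v = v}
      one_mem' := by simp
      mul_mem' := by
        intro a b ha hb
        simp only [Set.mem_ofPred_eq] at ha hb ⊢
        rw [map_mul, Module.End.mul_apply, hb, ha]
      inv_mem' := by
        intro a ha
        simp only [Set.mem_ofPred_eq] at ha ⊢
        have : ρ (a⁻¹ * a) v = v := by simp
        rw [map_mul, Module.End.mul_apply, ha] at this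
        exact this }
  have hK : ⁅H, H⁆ ≤ K := by
    rw [Subgroup.commutator_le]
    intro g₁ h₁ g₂ h₂
    change ρ ⁅g₁, g₂⁆ v = v
    obtain ⟨c₁, hc₁⟩ := hv g₁ h₁
    obtain ⟨c₂, hc₂⟩ := hv g₂ h₂
    obtain ⟨d, hd⟩ := hv (g₂ * g₁)⁻¹ (H.inv_mem (H.mul_mem h₂ h₁))
    have e1 : ρ ((g₂ * g₁) * (g₂ * g₁)⁻¹) v = v := by simp
    rw [map_mul, Module.End.mul_apply, hd, map_smul, map_mul, Module.End.mul_apply, hc₁,
      map_smul, hc₂] at e1
    have e2 : ⁅g₁, g₂⁆ = (g₁ * g₂) * (g₂ * g₁)⁻¹ := by
      rw [commutatorElement_def]; group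
    rw [e2, map_mul, Module.End.mul_apply, hd, map_smul, map_mul, Module.End.mul_apply, hc₂,
      map_smul, hc₁]
    rw [smul_comm c₂ c₁]
    exact e1
  intro a ha
  exact hK ha

/-- the action of a subgroup stabilising `W` on `V ⧸ W` -/
def quotRep {k V G : Type} [Field k] [AddCommGroup V] [Module k V] [Group G]
    (ρ : G →* Module.End k V) (H : Subgroup G) (W : Submodule k V)
    (hW : ∀ h ∈ H, W ≤ W.comap (ρ h)) : H →* Module.End k (V ⧸ W) where
  toFun h := W.mapQ W (ρ h) (hW h h.2)
  map_one' := by
    ext x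
    simp
  map_mul' a b := by
    ext x
    simp [Submodule.mapQ_apply]

theorem quotRep_prod {k V G : Type} [Field k] [AddCommGroup V] [Module k V] [Group G]
    (ρ : G →* Module.End k V) (H : Subgroup G) (W : Submodule k V)
    (hW : ∀ h ∈ H, W ≤ W.comap (ρ h)) (l : List H) (x : V) :
    (l.map fun h => quotRep ρ H W hW h - 1).prod (W.mkQ x) =
      W.mkQ (((l.map Subtype.val).map fun h => ρ h - 1).prod x) := by
  induction l with
  | nil => simp
  | cons a l ih =>
    simp only [List.map_cons, List.prod_cons, Module.End.mul_apply]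
    rw [ih]
    simp [quotRep, Submodule.mapQ_apply]

theorem malcev_closed (f : ℕ → ℕ) (hf : ∀ (n : ℕ) (k V G : Type) [Field k] [IsAlgClosed k]
    [AddCommGroup V] [Module k V] [FiniteDimensional k V] [Group G] [Group.IsSolvable G]
    (ρ : G →* Module.End k V), finrank k V = n → 0 < n →
    ∃ (H : Subgroup G) (v : V), H.index ≠ 0 ∧ H.index ≤ f n ∧ v ≠ 0 ∧
      ∀ h ∈ H, ∃ c : k, ρ h v = c • v) :
    ∀ (n : ℕ) (k V G : Type) [Field k] [IsAlgClosed k] [AddCommGroup V] [Module k V]
      [FiniteDimensional k V] [Group G] [Group.IsSolvable G] (ρ : G →* Module.End k V),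
      finrank k V = n → ∃ H : Subgroup G, H.index ≠ 0 ∧ H.index ≤ bnd f n ∧
      ∀ l : List G, l.length = n → (∀ h ∈ l, h ∈ ⁅H, H⁆) →
        (l.map fun h => ρ h - 1).prod = 0 := by
  intro n
  induction n with
  | zero =>
    intro k V G _ _ _ _ _ _ _ ρ hn
    refine ⟨⊤, by simp, by simp [bnd], ?_⟩
    intro l _ _
    have : Subsingleton V := finrank_zero_iff.mp hn
    exact Subsingleton.elim _ _
  | succ n ih =>
    intro k V G _ _ _ _ _ _ _ ρ hn
    obtain ⟨H₁, v, hi, hle, hv0, hv⟩ := hf (n + 1) k V G ρ hn (Nat.succ_pos n)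
    have hW : ∀ h ∈ H₁, Submodule.span k {v} ≤ (Submodule.span k {v}).comap (ρ h) := by
      intro h hh
      rw [Submodule.span_singleton_le_iff_mem, Submodule.mem_comap]
      obtain ⟨c, hc⟩ := hv h hh
      rw [hc]
      exact Submodule.smul_mem _ _ (Submodule.mem_span_singleton_self v)
    have hfr : finrank k (V ⧸ Submodule.span k {v}) = n := by
      have := Submodule.finrank_quotient_add_finrank (Submodule.span k {v})
      rw [finrank_span_singleton hv0, hn] at this
      omega
    obtain ⟨H₂, hi2, hle2, h2⟩ := ih k (V ⧸ Submodule.span k {v}) H₁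
      (quotRep ρ H₁ (Submodule.span k {v}) hW) hfr
    refine ⟨H₂.map H₁.subtype, ?_, ?_, ?_⟩
    · rw [Subgroup.index_map_subtype]
      exact mul_ne_zero hi2 hi
    · rw [Subgroup.index_map_subtype, bnd, mul_comm]
      exact Nat.mul_le_mul hle hle2
    · intro l hl hmem
      match l, hl, hmem with
      | a :: l, hl, hmem =>
        have hl' : l.length = n := by simpa using hl
        rw [← Subgroup.map_commutator] at hmem
        have hlift : ∀ l : List G, (∀ h ∈ l, h ∈ (⁅H₂, H₂⁆).map H₁.subtype) →
            ∃ l' : List H₁, l'.map Subtype.val = l ∧ ∀ h ∈ l', h ∈ ⁅H₂, H₂⁆ := by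
          intro l
          induction l with
          | nil => intro _; exact ⟨[], by simp, by simp⟩
          | cons b l ihl =>
            intro hb
            obtain ⟨l', h1, h2⟩ := ihl (fun h hh => hb h (List.mem_cons_of_mem _ hh))
            obtain ⟨b', hb', hbe⟩ := hb b List.mem_cons_self
            refine ⟨b' :: l', ?_, ?_⟩
            · simp only [List.map_cons, h1]
              congr 1
            · intro h hh
              rcases List.mem_cons.mp hh with rfl | hh
              · exact hb'
              · exact h2 h hh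
        obtain ⟨l', e1, e2⟩ := hlift l (fun h hh => hmem h (List.mem_cons_of_mem _ hh))
        have hl'' : l'.length = n := by rw [← hl', ← e1, List.length_map]
        have h3 := h2 l' hl'' e2
        simp only [List.map_cons, List.prod_cons]
        ext x
        rw [Module.End.mul_apply]
        have h4 := quotRep_prod ρ H₁ (Submodule.span k {v}) hW l' x
        rw [h3, e1, LinearMap.zero_apply] at h4
        have h5 := (Submodule.Quotient.mk_eq_zero (Submodule.span k {v})).mp h4.symm
        obtain ⟨c, hc⟩ := Submodule.mem_span_singleton.mp h5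
        rw [← hc]
        have ha : a ∈ ⁅H₁, H₁⁆ := by
          have h6 : (⁅H₂, H₂⁆).map H₁.subtype ≤ ⁅H₁, H₁⁆ := by
            rw [Subgroup.map_commutator]
            exact Subgroup.commutator_mono (Subgroup.map_subtype_le _)
              (Subgroup.map_subtype_le _)
          exact h6 (hmem a List.mem_cons_self)
        rw [map_smul, LinearMap.sub_apply, Module.End.one_apply,
          fix_of_mem_commutator ρ H₁ v hv a ha]
        simp

/-- all fields -/
theorem malcev_all (F : ℕ → ℕ) (hF : ∀ (n : ℕ) (k V G : Type) [Field k] [IsAlgClosed k]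
      [AddCommGroup V] [Module k V]
      [FiniteDimensional k V] [Group G] [Group.IsSolvable G] (ρ : G →* Module.End k V),
      finrank k V = n → ∃ H : Subgroup G, H.index ≠ 0 ∧ H.index ≤ F n ∧
      ∀ l : List G, l.length = n → (∀ h ∈ l, h ∈ ⁅H, H⁆) →
        (l.map fun h => ρ h - 1).prod = 0) (n : ℕ) (k V G : Type) [Field k] [AddCommGroup V]
      [Module k V] [FiniteDimensional k V] [Group G] [Group.IsSolvable G]
      (ρ : G →* Module.End k V) (hn : finrank k V = n) :
      ∃ H : Subgroup G, H.index ≠ 0 ∧ H.index ≤ F n ∧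
      ∀ l : List G, l.length = n → (∀ h ∈ l, h ∈ ⁅H, H⁆) →
        (l.map fun h => ρ h - 1).prod = 0 := by
  let φ : Module.End k V →+* Module.End (AlgebraicClosure k)
      (TensorProduct k (AlgebraicClosure k) V) :=
    (Module.End.baseChangeHom k (AlgebraicClosure k) V).toRingHom
  have hφ : ∀ a : Module.End k V, ∀ x : V, φ a (1 ⊗ₜ[k] x) = 1 ⊗ₜ[k] (a x) := by
    intro a x
    rfl
  obtain ⟨H, h1, h2, h3⟩ := hF n (AlgebraicClosure k)
    (TensorProduct k (AlgebraicClosure k) V) G ((φ : _ →* _).comp ρ)
    (by rw [Module.finrank_baseChange, hn])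
  refine ⟨H, h1, h2, ?_⟩
  intro l hl hm
  have h4 := h3 l hl hm
  have h5 : φ (l.map fun h => ρ h - 1).prod = 0 := by
    rw [map_list_prod, List.map_map, ← h4]
    congr 1
    apply List.map_congr_left
    intro g _
    simp
  ext x
  have h6 := hφ ((l.map fun h => ρ h - 1).prod) x
  rw [h5, LinearMap.zero_apply] at h6
  have hinj := Module.FaithfullyFlat.tensorProduct_mk_injective (A := k)
    (B := AlgebraicClosure k) V
  apply hinj
  rw [LinearMap.zero_apply, map_zero]
  exact h6.symm

/-- ST-3b, from the statement of ST-3a -/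
theorem exists_malcevBound_of (h : ∃ f : ℕ → ℕ, ∀ (n : ℕ) (k V G : Type) [Field k]
    [IsAlgClosed k]
    [AddCommGroup V] [Module k V] [FiniteDimensional k V] [Group G] [Group.IsSolvable G]
    (ρ : G →* Module.End k V), finrank k V = n → 0 < n →
    ∃ (H : Subgroup G) (v : V), H.index ≠ 0 ∧ H.index ≤ f n ∧ v ≠ 0 ∧
      ∀ h ∈ H, ∃ c : k, ρ h v = c • v) : ∃ f : ℕ → ℕ, MalcevBound f := by
  obtain ⟨f, hf⟩ := h
  refine ⟨fun n => ∑ m ∈ Finset.range (n + 1), bnd f m, ?_⟩
  intro n k V G _ _ _ _ _ _ ρ hn
  obtain ⟨H, h1, h2, h3⟩ := malcev_all (bnd f) (malcev_closed f hf) (finrank k V) k V G ρ rfl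
  refine ⟨H, h1, h2.trans ?_, ?_⟩
  · exact Finset.single_le_sum (f := bnd f) (fun i _ => Nat.zero_le _)
      (Finset.mem_range.mpr (by omega))
  · intro l hl hm
    rw [← List.take_append_drop (finrank k V) l, List.map_append, List.prod_append,
      h3 (l.take (finrank k V)) (by simp [hl, hn])
        (fun h hh => hm h (List.mem_of_mem_take hh)), zero_mul]

end Pool.Agent.ST
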